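import Mathlib
import Pool.Agent.H14.Shift

set_option autoImplicit false

namespace Pool.Agent.Results.MP_fd999f_co.Counter

open Finset Pointwise Pool.Agent.H14.Shift

theorem result : ¬ ∃ c₃ c₄ δ : ℝ, 0 < c₃ ∧ 0 < c₄ ∧ 0 < δ ∧ ∃ N₀ : ℕ, ∀ A : Finset ℕ,
    (∀ a ∈ A, 0 < a) → N₀ ≤ A.card → ∃ E F : Finset ℕ,
      ((A * A).card : ℝ) ^ δ ≤ E.card ∧ ((A * A).card : ℝ) ^ δ ≤ F.card ∧
      ((E * F).card : ℝ) ≤ c₃ * (A * A).card ∧
      c₄ * (A * A).card ≤ (((A * A).image (· + 1) ∩ (E * F)).card : ℝ) := by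
  rintro ⟨c₃, c₄, δ, h3, h4, hδ, N₀, h⟩
  obtain ⟨t, ht⟩ := exists_nat_gt ((2 * c₃ + 1) / c₄)
  rw [div_lt_iff₀ h4] at ht
  obtain ⟨N₁, hN₁⟩ := exists_nat_gt (((t : ℝ) + 1) ^ δ⁻¹ + 2 * t * t * t)
  obtain ⟨A, hk, hp, hc⟩ := exists_A (N₀ + N₁ + 1)
  obtain ⟨E, F, hE, hF, hEF, hS⟩ := h A hp (by omega)
  have hn : A.card ≤ (A * A).card := by
    obtain ⟨a, ha⟩ : A.Nonempty := card_pos.1 (by omega)
    exact card_le_card_of_injOn (a * ·) (fun b hb => mul_mem_mul ha hb)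
      fun b _ c _ e => Nat.eq_of_mul_eq_mul_left (hp a ha) e
  have hn' : (N₁ : ℝ) ≤ (A * A).card := by exact_mod_cast (by omega : N₁ ≤ (A * A).card)
  have h0 : (0 : ℝ) ≤ ((t : ℝ) + 1) ^ δ⁻¹ := by positivity
  have h0' : (0 : ℝ) ≤ 2 * t * t * t := by positivity
  have hpow : (t : ℝ) + 1 ≤ ((A * A).card : ℝ) ^ δ := by
    rw [← Real.rpow_inv_rpow (x := (t : ℝ) + 1) (by positivity) hδ.ne']
    exact Real.rpow_le_rpow h0 (by linarith) hδ.le
  have key := both ((A * A).image (· + 1)) E F (by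
      intro x hx
      obtain ⟨y, hy, rfl⟩ := mem_image.1 hx
      obtain ⟨a, ha, b, hb, rfl⟩ := mem_mul.1 hy
      have := Nat.mul_pos (hp a ha) (hp b hb)
      omega) (by
      intro x hx x' hx' hne
      obtain ⟨y, hy, rfl⟩ := mem_image.1 hx
      obtain ⟨y', hy', rfl⟩ := mem_image.1 hx'
      exact hc y hy y' hy' fun e => hne (by rw [e])) t
    (by exact_mod_cast hpow.trans hE) (by exact_mod_cast hpow.trans hF)
  have key' : ((((A * A).image (· + 1) ∩ (E * F)).card : ℝ)) * t ≤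
      2 * ((E * F).card + t * t * t) := by exact_mod_cast key
  have h5 := mul_le_mul_of_nonneg_right hS (Nat.cast_nonneg t : (0 : ℝ) ≤ t)
  have h6 := mul_le_mul_of_nonneg_right ht.le (Nat.cast_nonneg (A * A).card : (0 : ℝ) ≤ _)
  nlinarith

end Pool.Agent.Results.MP_fd999f_co.Counter
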